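import Pool.Agent.Q73.Core.Lap

/-!
# A maximal component of the core whose closure is compact (Q2)

`Ω = {(z, w) : |w| < 1, |F_J(z, w)| < 1 for some J}` where `F_0 = z`,
`F_{J+1} = (F_J (w - w_J)/2)²`, `w_J = 2^{-(J+1)}`.  This is a Hartogs domain over the unit disc;
its fibres over the points `w_J → 0` are complete complex lines, its fibre over `0` is bounded.
-/

set_option autoImplicit false

open Filter Topology Set Metric

namespace Pool.Agent.Results.MP_425ff5_an.CompactClosure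

/-- The Stein manifold `ℂ²`. -/
abbrev C2 := ℂ × ℂ

/-- The Levi form of a smooth function `φ` at `z` in the direction `v`:
`∑ ∂²φ/∂z_j∂z̄_k (z) v_j v̄_k = ∂²/∂ζ∂ζ̄ φ(z + ζ v) |_{ζ = 0}`, one quarter of the Laplacian at `0`
of `ζ ↦ φ(z + ζ v)`. -/
noncomputable def leviForm (φ : C2 → ℝ) (z v : C2) : ℝ :=
  (1 / 4) * Laplacian.laplacian (fun ζ : ℂ => φ (z + ζ • v)) 0

/-- `φ` is a smooth (`C^∞`) plurisubharmonic function on `Ω` that is bounded from above,
i.e. `φ ∈ 𝓕(Ω)`. -/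
structure BoundedPsh (Ω : Set C2) (φ : C2 → ℝ) : Prop where
  smooth : ContDiffOn ℝ ((⊤ : ℕ∞) : WithTop ℕ∞) φ Ω
  psh : ∀ z ∈ Ω, ∀ v : C2, 0 ≤ leviForm φ z v
  bounded : ∃ C : ℝ, ∀ z ∈ Ω, φ z ≤ C

/-- `φ` is strictly plurisubharmonic at `z`: its Levi form at `z` is positive definite. -/
def StrictAt (φ : C2 → ℝ) (z : C2) : Prop := ∀ v : C2, v ≠ 0 → 0 < leviForm φ z v

/-- The core of `Ω`. -/
def core (Ω : Set C2) : Set C2 :=
  {z | z ∈ Ω ∧ ∀ φ : C2 → ℝ, BoundedPsh Ω φ → ¬ StrictAt φ z}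

/-- The family `L` of the subsets of the core on which all functions of `𝓕(Ω)` are constant. -/
def ConstFamily (Ω : Set C2) (s : Set C2) : Prop :=
  s ⊆ core Ω ∧ ∀ φ : C2 → ℝ, BoundedPsh Ω φ → ∀ x ∈ s, ∀ y ∈ s, φ x = φ y

/-- `s` is a maximal component of the core of `Ω`: a maximal element of `L`. -/
def IsMaximalComponent (Ω : Set C2) (s : Set C2) : Prop := Maximal (ConstFamily Ω) s

/-- The value of a polynomial in two variables. -/
noncomputable def pev (P : MvPolynomial (Fin 2) ℂ) (x : C2) : ℂ :=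
  MvPolynomial.eval ![x.1, x.2] P

/-- The polynomially convex hull. -/
def polyHull (K : Set C2) : Set C2 :=
  {x | ∀ (P : MvPolynomial (Fin 2) ℂ) (C : ℝ), (∀ y ∈ K, ‖pev P y‖ ≤ C) → ‖pev P x‖ ≤ C}

/-! ### The domain -/

/-- the points `w_J = 2^{-(J+1)}` -/
noncomputable def pt (J : ℕ) : ℂ := (1 / 2) ^ (J + 1)

/-- the polynomials `F_J` -/
noncomputable def Fp : ℕ → MvPolynomial (Fin 2) ℂ
  | 0 => MvPolynomial.X 0
  | J + 1 => (Fp J * ((MvPolynomial.X 1 - MvPolynomial.C (pt J)) * MvPolynomial.C (1 / 2))) ^ 2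

/-- the domain -/
def Om : Set C2 := {x | ‖x.2‖ < 1 ∧ ∃ J : ℕ, ‖pev (Fp J) x‖ < 1}

lemma pev_zero (x : C2) : pev (Fp 0) x = x.1 := by
  simp [pev, Fp]

lemma pev_succ (J : ℕ) (x : C2) :
    pev (Fp (J + 1)) x = (pev (Fp J) x * ((x.2 - pt J) / 2)) ^ 2 := by
  simp [pev, Fp]
  ring

lemma pev_continuous (P : MvPolynomial (Fin 2) ℂ) : Continuous (pev P) := by
  unfold pev
  have h1 : Continuous fun y : Fin 2 → ℂ => MvPolynomial.eval y P := P.continuous_eval
  have h2 : Continuous fun x : C2 => (![x.1, x.2] : Fin 2 → ℂ) := by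
    apply continuous_pi
    intro i
    fin_cases i
    · exact continuous_fst
    · exact continuous_snd
  exact h1.comp h2

lemma norm_pt (J : ℕ) : ‖pt J‖ = (1 / 2) ^ (J + 1) := by
  simp [pt]

lemma norm_pt_lt (J : ℕ) : ‖pt J‖ < 1 := by
  rw [norm_pt]
  exact pow_lt_one₀ (by norm_num) (by norm_num) (by omega)

lemma norm_factor {w : ℂ} (hw : ‖w‖ < 1) (J : ℕ) : ‖(w - pt J) / 2‖ < 1 := by
  have h1 : ‖w - pt J‖ ≤ ‖w‖ + ‖pt J‖ := norm_sub_le _ _
  have h2 := norm_pt_lt J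
  rw [norm_div]
  have : ‖(2:ℂ)‖ = 2 := by simp
  rw [this]
  linarith

lemma mono_step {x : C2} (hx : ‖x.2‖ < 1) {J : ℕ} (h : ‖pev (Fp J) x‖ < 1) :
    ‖pev (Fp (J + 1)) x‖ < 1 := by
  rw [pev_succ, norm_pow, norm_mul]
  apply pow_lt_one₀ (by positivity) _ (by norm_num)
  calc ‖pev (Fp J) x‖ * ‖(x.2 - pt J) / 2‖ < 1 * 1 :=
        mul_lt_mul'' h (norm_factor hx J) (norm_nonneg _) (norm_nonneg _)
    _ = 1 := by norm_num

lemma mono_le {x : C2} (hx : ‖x.2‖ < 1) {J J' : ℕ} (hJ : J ≤ J') (h : ‖pev (Fp J) x‖ < 1) :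
    ‖pev (Fp J') x‖ < 1 := by
  induction J', hJ using Nat.le_induction with
  | base => exact h
  | succ n _ ih => exact mono_step hx ih

/-- the sublevel domains -/
def OmJ (J : ℕ) : Set C2 := {x | ‖x.2‖ < 1 ∧ ‖pev (Fp J) x‖ < 1}

lemma isOpen_OmJ (J : ℕ) : IsOpen (OmJ J) := by
  have h1 : Continuous fun x : C2 => ‖x.2‖ := continuous_snd.norm
  have h2 : Continuous fun x : C2 => ‖pev (Fp J) x‖ := (pev_continuous _).norm
  exact (isOpen_lt h1 continuous_const).inter (isOpen_lt h2 continuous_const)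

lemma Om_eq : Om = ⋃ J, OmJ J := by
  ext x
  simp [Om, OmJ]

lemma isOpen_Om : IsOpen Om := by
  rw [Om_eq]
  exact isOpen_iUnion isOpen_OmJ

/-- the fibres over the points `w_J` are complete lines -/
lemma line_mem (z : ℂ) (J : ℕ) : ((z, pt J) : C2) ∈ Om := by
  refine ⟨norm_pt_lt J, J + 1, ?_⟩
  rw [pev_succ]
  simp

/-- homogeneity in the first variable -/
lemma pev_smul (t : ℂ) (x : C2) (J : ℕ) :
    pev (Fp J) (t * x.1, x.2) = t ^ (2 ^ J) * pev (Fp J) x := by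
  induction J with
  | zero => simp [pev_zero]
  | succ n ih =>
    rw [pev_succ, pev_succ, ih, pow_succ 2 n, pow_mul]
    ring

/-- the values over `w = 0` -/
lemma norm_pev_zero (z : ℂ) (J : ℕ) :
    ‖pev (Fp J) (z, 0)‖ = (‖z‖ / 64) ^ (2 ^ J) * 2 ^ (2 * J + 6) := by
  induction J with
  | zero =>
    rw [pev_zero]
    norm_num
  | succ n ih =>
    rw [pev_succ, norm_pow, norm_mul, ih]
    have h1 : ‖(((z, 0) : C2).2 - pt n) / 2‖ = (1 / 2) ^ (n + 2) := by
      simp only [zero_sub, norm_div, norm_neg, norm_pt]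
      have : ‖(2:ℂ)‖ = 2 := by simp
      rw [this, pow_succ (1/2 : ℝ) (n+1)]
      ring
    rw [h1, mul_pow, mul_pow, pow_succ 2 n, pow_mul]
    have h2 : ((2:ℝ) ^ (2 * n + 6)) ^ 2 * ((1 / 2) ^ (n + 2)) ^ 2 = 2 ^ (2 * (n + 1) + 6) := by
      rw [← pow_mul, ← pow_mul, one_div, inv_pow]
      rw [mul_inv_eq_iff_eq_mul₀ (by positivity), ← pow_add]
      congr 1
      ring
    rw [mul_assoc, h2]

lemma norm_lt_of_mem {z : ℂ} (h : ((z, 0) : C2) ∈ Om) : ‖z‖ < 64 := by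
  obtain ⟨-, J, hJ⟩ := h
  rw [norm_pev_zero] at hJ
  by_contra hcon
  rw [not_lt] at hcon
  have h1 : 1 ≤ (‖z‖ / 64) ^ (2 ^ J) := one_le_pow₀ (by rw [le_div_iff₀ (by norm_num)]; linarith)
  have h2 : (1:ℝ) ≤ 2 ^ (2 * J + 6) := one_le_pow₀ (by norm_num)
  nlinarith

lemma zero_fibre {w : ℂ} (hw : ‖w‖ < 1) : ((0, w) : C2) ∈ Om :=
  ⟨hw, 0, by rw [pev_zero]; simp⟩

lemma isConnected_Om : IsConnected Om := by
  refine ⟨⟨(0, 0), zero_fibre (by simp)⟩, ?_⟩
  apply isPreconnected_of_forall ((0, 0) : C2)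
  rintro ⟨z, w⟩ hx
  have hw : ‖w‖ < 1 := hx.1
  refine ⟨(fun t : ℝ => ((0, (t:ℂ) * w) : C2)) '' Icc 0 1 ∪
    (fun t : ℝ => (((t:ℂ) * z, w) : C2)) '' Icc 0 1, ?_, ?_, ?_, ?_⟩
  · apply union_subset
    · rintro _ ⟨t, ht, rfl⟩
      apply zero_fibre
      rw [norm_mul, Complex.norm_real, Real.norm_eq_abs, abs_of_nonneg ht.1]
      calc t * ‖w‖ ≤ 1 * ‖w‖ := by gcongr; exact ht.2
        _ < 1 := by linarith
    · rintro _ ⟨t, ht, rfl⟩
      obtain ⟨-, J, hJ⟩ := hx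
      refine ⟨hw, J, ?_⟩
      have := pev_smul (t:ℂ) (z, w) J
      simp only at this
      rw [this, norm_mul, norm_pow, Complex.norm_real, Real.norm_eq_abs, abs_of_nonneg ht.1]
      calc t ^ (2 ^ J) * ‖pev (Fp J) (z, w)‖ ≤ 1 * ‖pev (Fp J) (z, w)‖ := by
            gcongr; exact pow_le_one₀ ht.1 ht.2
        _ < 1 := by linarith
  · left; exact ⟨0, by simp, by simp⟩
  · right; exact ⟨1, by simp, by simp⟩
  · apply IsPreconnected.union (0, w)
    · exact ⟨1, by simp, by simp⟩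
    · exact ⟨0, by simp, by simp⟩
    · exact isPreconnected_Icc.image _ (by fun_prop)
    · exact isPreconnected_Icc.image _ (by fun_prop)

/-- polynomial hulls of compact subsets of `Ω` are compact subsets of `Ω` -/
lemma hull_Om {K : Set C2} (hK : IsCompact K) (hKO : K ⊆ Om) :
    IsCompact (polyHull K) ∧ polyHull K ⊆ Om := by
  rcases K.eq_empty_or_nonempty with rfl | hne
  · have : polyHull ∅ = ∅ := by
      apply eq_empty_of_forall_notMem
      intro x hx
      have := hx 0 (-1) (by simp)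
      simp [pev] at this
      linarith
    rw [this]
    exact ⟨isCompact_empty, empty_subset _⟩
  obtain ⟨J, hJ⟩ : ∃ J, K ⊆ OmJ J := by
    apply hK.elim_directed_cover _ isOpen_OmJ (by rw [← Om_eq]; exact hKO)
    apply Monotone.directed_le
    intro a b hab x hx
    exact ⟨hx.1, mono_le hx.1 hab hx.2⟩
  -- maxima
  obtain ⟨x1, hx1, hm1⟩ := hK.exists_isMaxOn hne (pev_continuous (Fp J)).norm.continuousOn
  obtain ⟨x2, hx2, hm2⟩ := hK.exists_isMaxOn hne
    (continuous_snd.norm : Continuous fun x : C2 => ‖x.2‖).continuousOn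
  obtain ⟨x3, hx3, hm3⟩ := hK.exists_isMaxOn hne
    (continuous_fst.norm : Continuous fun x : C2 => ‖x.1‖).continuousOn
  have h1 : ∀ x ∈ polyHull K, ‖pev (Fp J) x‖ ≤ ‖pev (Fp J) x1‖ := fun x hx =>
    hx (Fp J) _ fun y hy => hm1 hy
  have h2 : ∀ x ∈ polyHull K, ‖x.2‖ ≤ ‖x2.2‖ := fun x hx => by
    have := hx (MvPolynomial.X 1) ‖x2.2‖ fun y hy => by
      have := hm2 hy
      simpa [pev] using this
    simpa [pev] using this
  have h3 : ∀ x ∈ polyHull K, ‖x.1‖ ≤ ‖x3.1‖ := fun x hx => by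
    have := hx (MvPolynomial.X 0) ‖x3.1‖ fun y hy => by
      have := hm3 hy
      simpa [pev] using this
    simpa [pev] using this
  constructor
  · have hcl : IsClosed (polyHull K) := by
      have : polyHull K = ⋂ (P : MvPolynomial (Fin 2) ℂ) (C : ℝ) (_ : ∀ y ∈ K, ‖pev P y‖ ≤ C),
          {x | ‖pev P x‖ ≤ C} := by
        ext x; simp [polyHull]
      rw [this]
      refine isClosed_iInter fun P => isClosed_iInter fun C => isClosed_iInter fun _ => ?_
      exact isClosed_le (pev_continuous P).norm continuous_const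
    apply IsCompact.of_isClosed_subset
      ((isCompact_closedBall (0:ℂ) ‖x3.1‖).prod (isCompact_closedBall (0:ℂ) ‖x2.2‖)) hcl
    intro x hx
    exact ⟨by simpa using h3 x hx, by simpa using h2 x hx⟩
  · intro x hx
    exact ⟨(h2 x hx).trans_lt (hJ hx2).1, J, (h1 x hx).trans_lt (hJ hx1).2⟩

/-! ### Functions of `𝓕(Ω)` on the lines and on the disc -/

lemma laplacian_shift (u : ℂ → ℝ) (z : ℂ) :
    Laplacian.laplacian (fun ζ : ℂ => u (z + ζ)) 0 = Laplacian.laplacian u z := by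
  rw [InnerProductSpace.laplacian_eq_iteratedFDeriv_complexPlane,
    InnerProductSpace.laplacian_eq_iteratedFDeriv_complexPlane]
  simp only [iteratedFDeriv_comp_add_left, add_zero]

lemma const_line {φ : C2 → ℝ} (hφ : BoundedPsh Om φ) (J : ℕ) (z z' : ℂ) :
    φ (z, pt J) = φ (z', pt J) := by
  obtain ⟨C, hC⟩ := hφ.bounded
  have hu : ContDiff ℝ 2 fun z : ℂ => φ (z, pt J) := by
    have h1 : ContDiffOn ℝ 2 φ Om := hφ.smooth.of_le (by
      rw [show (2 : WithTop ℕ∞) = ((2 : ℕ∞) : WithTop ℕ∞) from rfl]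
      exact WithTop.coe_le_coe.2 le_top)
    have h2 : ContDiff ℝ 2 fun z : ℂ => ((z, pt J) : C2) := by fun_prop
    have := h1.comp (s := univ) h2.contDiffOn (fun z _ => line_mem z J)
    exact contDiffOn_univ.1 this
  apply Q73.Core.liouville hu (C := C) _ (fun z => hC _ (line_mem z J))
  intro z
  have h := hφ.psh (z, pt J) (line_mem z J) (1, 0)
  unfold leviForm at h
  have e : (fun ζ : ℂ => φ ((z, pt J) + ζ • ((1, 0) : C2))) =
      fun ζ : ℂ => (fun z : ℂ => φ (z, pt J)) (z + ζ) := by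
    funext ζ
    simp
  rw [e, laplacian_shift (fun z : ℂ => φ (z, pt J)) z] at h
  linarith

lemma tendsto_pt : Tendsto pt atTop (𝓝 0) := by
  rw [tendsto_zero_iff_norm_tendsto_zero]
  simp only [norm_pt]
  exact (tendsto_pow_atTop_nhds_zero_of_lt_one (by norm_num) (by norm_num)).comp
    (tendsto_add_atTop_nat 1)

lemma const_disc {φ : C2 → ℝ} (hφ : BoundedPsh Om φ) {z z' : ℂ} (hz : ((z, 0) : C2) ∈ Om)
    (hz' : ((z', 0) : C2) ∈ Om) : φ (z, 0) = φ (z', 0) := by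
  have key : ∀ z : ℂ, ((z, 0) : C2) ∈ Om →
      Tendsto (fun J => φ (z, pt J)) atTop (𝓝 (φ (z, 0))) := by
    intro z hz
    have h1 : ContinuousAt φ (z, 0) :=
      (hφ.smooth.continuousOn.continuousAt (isOpen_Om.mem_nhds hz))
    have h2 : Tendsto (fun J => ((z, pt J) : C2)) atTop (𝓝 (z, 0)) :=
      tendsto_const_nhds.prodMk_nhds tendsto_pt
    exact h1.tendsto.comp h2
  have h1 := key z hz
  have h2 := key z' hz'
  have e : (fun J => φ (z, pt J)) = fun J => φ (z', pt J) := by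
    funext J; exact const_line hφ J z z'
  rw [e] at h1
  exact tendsto_nhds_unique h1 h2

/-- the disc `Ω ∩ {w = 0}` -/
def disc : Set C2 := {x | x ∈ Om ∧ x.2 = 0}

lemma disc_core : disc ⊆ core Om := by
  rintro ⟨z, w⟩ ⟨hx, hw⟩
  simp only at hw
  subst hw
  refine ⟨hx, fun φ hφ hs => ?_⟩
  have h := hs (1, 0) (by simp)
  unfold leviForm at h
  have e : (fun ζ : ℂ => φ ((z, 0) + ζ • ((1, 0) : C2))) =ᶠ[𝓝 0] fun _ => φ (z, 0) := by
    have hc : Continuous fun ζ : ℂ => ((z, 0) : C2) + ζ • ((1, 0) : C2) := by fun_prop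
    have hm : ∀ᶠ ζ in 𝓝 (0:ℂ), ((z, 0) : C2) + ζ • ((1, 0) : C2) ∈ Om :=
      hc.continuousAt.eventually (isOpen_Om.mem_nhds (by simpa using hx))
    filter_upwards [hm] with ζ hζ
    have e1 : ((z, 0) : C2) + ζ • ((1, 0) : C2) = (z + ζ, 0) := by simp
    rw [e1] at hζ ⊢
    exact const_disc hφ hζ hx
  have e2 := (InnerProductSpace.laplacian_congr_nhds e).self_of_nhds
  rw [e2, InnerProductSpace.laplacian_const] at h
  simp at h

lemma psh_of_harmonic {φ : C2 → ℝ} (hs : ContDiff ℝ ((⊤ : ℕ∞) : WithTop ℕ∞) φ)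
    (hh : ∀ z v : C2, InnerProductSpace.HarmonicAt (fun ζ : ℂ => φ (z + ζ • v)) 0)
    (hb : ∃ C : ℝ, ∀ z ∈ Om, φ z ≤ C) : BoundedPsh Om φ where
  smooth := hs.contDiffOn
  psh := fun z _ v => by
    unfold leviForm
    rw [(hh z v).2.self_of_nhds]
    simp
  bounded := hb

lemma psh_re : BoundedPsh Om fun x => x.2.re := by
  apply psh_of_harmonic
  · exact Complex.reCLM.contDiff.comp contDiff_snd
  · intro z v
    have h : AnalyticAt ℂ (fun ζ : ℂ => z.2 + ζ * v.2) 0 := by fun_prop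
    exact h.harmonicAt_re
  · exact ⟨1, fun z hz => (Complex.re_le_norm _).trans hz.1.le⟩

lemma psh_im : BoundedPsh Om fun x => x.2.im := by
  apply psh_of_harmonic
  · exact Complex.imCLM.contDiff.comp contDiff_snd
  · intro z v
    have h : AnalyticAt ℂ (fun ζ : ℂ => z.2 + ζ * v.2) 0 := by fun_prop
    exact h.harmonicAt_im
  · exact ⟨1, fun z hz => (Complex.abs_im_le_norm _).trans' (le_abs_self _) |>.trans hz.1.le⟩

lemma disc_maximal : IsMaximalComponent Om disc := by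
  refine ⟨⟨disc_core, ?_⟩, ?_⟩
  · rintro φ hφ ⟨z, w⟩ ⟨hx, hw⟩ ⟨z', w'⟩ ⟨hx', hw'⟩
    simp only at hw hw'
    subst hw; subst hw'
    exact const_disc hφ hx hx'
  · intro s hs hsub x hx
    have h0 : ((0, 0) : C2) ∈ disc := ⟨zero_fibre (by simp), rfl⟩
    have h0s : ((0, 0) : C2) ∈ s := hsub h0
    have h1 := hs.2 _ psh_re x hx _ h0s
    have h2 := hs.2 _ psh_im x hx _ h0s
    exact ⟨(hs.1 hx).1, Complex.ext (by simpa using h1) (by simpa using h2)⟩

/-- **Theorem (negative answer to Q2).**  There is a domain `Ω ⊆ ℂ²` and a nonempty maximal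
component of its core whose closure in `ℂ²` is compact.  Moreover `Ω` is pseudoconvex, in the
strong sense that the polynomially convex hull of every compact subset of `Ω` is a compact subset
of `Ω`, and the maximal component is a whole slice `Ω ∩ {w = 0}`. -/
theorem result :
    ∃ Ω : Set C2, IsOpen Ω ∧ IsConnected Ω ∧
      (∀ K : Set C2, IsCompact K → K ⊆ Ω → IsCompact (polyHull K) ∧ polyHull K ⊆ Ω) ∧
      ∃ s : Set C2, IsMaximalComponent Ω s ∧ s.Nonempty ∧ IsCompact (closure s) ∧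
        s = {x | x ∈ Ω ∧ x.2 = 0} := by
  refine ⟨Om, isOpen_Om, isConnected_Om, fun K hK hKO => hull_Om hK hKO, disc, disc_maximal,
    ⟨(0, 0), zero_fibre (by simp), rfl⟩, ?_, rfl⟩
  have hsub : disc ⊆ closedBall (0:ℂ) 64 ×ˢ closedBall (0:ℂ) 64 := by
    rintro ⟨z, w⟩ ⟨hx, hw⟩
    simp only at hw
    subst hw
    exact ⟨by simpa using (norm_lt_of_mem hx).le, by simp⟩
  have hc : IsCompact (closedBall (0:ℂ) 64 ×ˢ closedBall (0:ℂ) 64) :=
    (isCompact_closedBall _ _).prod (isCompact_closedBall _ _)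
  exact hc.closure_of_subset hsub

end Pool.Agent.Results.MP_425ff5_an.CompactClosure
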